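import Pool.Agent.H21.Ech.Var

/-!
# Even period polynomials and their first coefficients
-/

set_option autoImplicit false

namespace Pool.Agent.H21.Ech

open Finset Polynomial

/-- partial sums as a linear map -/
def psumL : (ℕ → ℚ) →ₗ[ℚ] (ℕ → ℚ) where
  toFun := psum
  map_add' a b := by
    funext i
    simp [psum, Finset.sum_add_distrib]
  map_smul' r a := by
    funext i
    simp [psum, Finset.mul_sum]

theorem psumL_pow (M : ℕ) (a : ℕ → ℚ) : (psumL ^ M) a = psum^[M] a := by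
  rw [Module.End.pow_apply]
  rfl

/-- the coefficients as a linear map -/
noncomputable def coeffL : ℚ[X] →ₗ[ℚ] (ℕ → ℚ) where
  toFun f := f.coeff
  map_add' f g := by
    funext i
    simp
  map_smul' r f := by
    funext i
    simp

/-- the functional: coefficient of `X ^ (h + 1 - 3 M)` of `f / (1 - X) ^ M` -/
noncomputable def Fn (h M : ℕ) : ℚ[X] →ₗ[ℚ] ℚ :=
  (LinearMap.proj (h + 1 - 3 * M)) ∘ₗ (psumL ^ M) ∘ₗ coeffL

theorem Fn_apply (h M : ℕ) (f : ℚ[X]) : Fn h M f = (psum^[M] f.coeff) (h + 1 - 3 * M) := by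
  show ((psumL ^ M) (coeffL f)) (h + 1 - 3 * M) = _
  rw [psumL_pow]
  rfl

/-- the basis -/
noncomputable def bas (h m : ℕ) : ℚ[X] := X ^ (h - m) * (1 - X) ^ (m / 3 + m % 3)

theorem psum_one_sub (f : ℚ[X]) : psum ((1 - X) * f).coeff = f.coeff := by
  funext i
  induction i with
  | zero => rw [psum_zero, sub_mul, one_mul, coeff_sub, coeff_X_mul_zero, sub_zero]
  | succ i ih => rw [psum_succ, ih, sub_mul, one_mul, coeff_sub, coeff_X_mul]; ring

theorem psum_iter_one_sub (M : ℕ) (f : ℚ[X]) : psum^[M] ((1 - X) ^ M * f).coeff = f.coeff := by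
  induction M with
  | zero => simp
  | succ M ih => rw [Function.iterate_succ_apply, pow_succ', mul_assoc, psum_one_sub, ih]

theorem Fn_bas {h M m : ℕ} (hM : 1 ≤ M) (hMh : 3 * M ≤ h + 1) (hm : m ≤ h) :
    Fn h M (bas h m) = if m + 1 = 3 * M then 1 else 0 := by
  rw [Fn_apply]
  rcases Nat.lt_or_ge (m + 1) (3 * M) with h1 | h1
  · rw [if_neg (by omega)]
    refine psum_iter_vanish (r := h - m) (fun i hi => ?_) M _ (by omega)
    rw [bas, coeff_X_pow_mul', if_neg (by omega)]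
  · have hMe : M ≤ m / 3 + m % 3 := by omega
    have e1 : bas h m = (1 - X) ^ M * (X ^ (h - m) * (1 - X) ^ (m / 3 + m % 3 - M)) := by
      rw [mul_left_comm, ← pow_add, Nat.add_sub_cancel' hMe, bas]
    rw [e1, psum_iter_one_sub, coeff_X_pow_mul', if_pos (by omega),
      show h + 1 - 3 * M - (h - m) = m + 1 - 3 * M by omega]
    split_ifs with h2
    · rw [show m + 1 - 3 * M = 0 by omega, coeff_zero_eq_eval_zero]
      simp
    · apply coeff_eq_zero_of_natDegree_lt
      have h3 : ((1 - X : ℚ[X]) ^ (m / 3 + m % 3 - M)).natDegree ≤ m / 3 + m % 3 - M := by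
        refine natDegree_pow_le.trans ?_
        have : (1 - X : ℚ[X]).natDegree ≤ 1 := by
          refine (natDegree_sub_le _ _).trans ?_
          simp
        calc _ ≤ (m / 3 + m % 3 - M) * 1 := Nat.mul_le_mul_left _ this
          _ = _ := Nat.mul_one _
      omega

theorem natDegree_bas {h m : ℕ} (hm : m ≤ h) : (bas h m).natDegree ≤ h := by
  unfold bas
  refine natDegree_mul_le.trans ?_
  have h3 : ((1 - X : ℚ[X]) ^ (m / 3 + m % 3)).natDegree ≤ m / 3 + m % 3 := by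
    refine natDegree_pow_le.trans ?_
    have : (1 - X : ℚ[X]).natDegree ≤ 1 := by
      refine (natDegree_sub_le _ _).trans ?_
      simp
    calc _ ≤ (m / 3 + m % 3) * 1 := Nat.mul_le_mul_left _ this
      _ = _ := Nat.mul_one _
  rw [natDegree_X_pow]
  omega

/-- every polynomial of degree at most `h` is a combination of the `bas h m` -/
theorem exists_bas (h : ℕ) : ∀ (t : ℕ), t ≤ h + 1 → ∀ f : ℚ[X], f.natDegree ≤ h →
    (∀ i < h + 1 - t, f.coeff i = 0) → ∃ γ : ℕ → ℚ, f = ∑ m ∈ range t, C (γ m) * bas h m := by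
  intro t
  induction t with
  | zero =>
    intro _ f hf h0
    refine ⟨fun _ => 0, ?_⟩
    rw [Finset.sum_range_zero]
    ext i
    rw [coeff_zero]
    rcases Nat.lt_or_ge i (h + 1) with h1 | h1
    · exact h0 i h1
    · exact coeff_eq_zero_of_natDegree_lt (by omega)
  | succ t ih =>
    intro ht f hf h0
    set r := f.coeff (h - t) with hr
    have hdeg : (f - C r * bas h t).natDegree ≤ h := by
      refine (natDegree_sub_le _ _).trans (max_le hf ?_)
      exact (natDegree_C_mul_le _ _).trans (natDegree_bas (by omega))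
    obtain ⟨γ, hγ⟩ := ih (by omega) (f - C r * bas h t) hdeg (by
      intro i hi
      rw [coeff_sub, coeff_C_mul, bas, coeff_X_pow_mul']
      rcases Nat.lt_or_ge i (h - t) with h1 | h1
      · rw [if_neg (by omega), h0 i (by omega)]
        ring
      · have : i = h - t := by omega
        rw [if_pos h1, this, Nat.sub_self, ← hr, coeff_zero_eq_eval_zero]
        simp)
    refine ⟨fun m => if m = t then r else γ m, ?_⟩
    rw [Finset.sum_range_succ]
    have e1 : ∑ m ∈ range t, C (if m = t then r else γ m) * bas h m =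
        ∑ m ∈ range t, C (γ m) * bas h m := by
      refine Finset.sum_congr rfl fun m hm => ?_
      rw [mem_range] at hm
      rw [if_neg (by omega)]
    show f = (∑ m ∈ range t, C (if m = t then r else γ m) * bas h m) +
      C (if t = t then r else γ t) * bas h t
    rw [e1, ← hγ, if_pos rfl]
    ring

/-- the polynomial `∑ s_i (1 + X) ^ (h - 2 i)` -/
noncomputable def Gam (h K : ℕ) (s : ℕ → ℚ) : ℚ[X] := ∑ i ∈ range K, C (s i) * (1 + X) ^ (h - 2 * i)

theorem natDegree_Gam (h K : ℕ) (s : ℕ → ℚ) : (Gam h K s).natDegree ≤ h := by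
  unfold Gam
  refine natDegree_sum_le_of_forall_le _ _ fun i _ => ?_
  refine (natDegree_C_mul_le _ _).trans (natDegree_pow_le.trans ?_)
  have : (1 + X : ℚ[X]).natDegree ≤ 1 := by
    refine (natDegree_add_le _ _).trans ?_
    simp
  calc (h - 2 * i) * (1 + X : ℚ[X]).natDegree ≤ (h - 2 * i) * 1 := Nat.mul_le_mul_left _ this
    _ ≤ h := by omega

/-- the value at `- Q / b` -/
theorem eval_Gam {h K : ℕ} (hK : 2 * K ≤ h + 2) (s : ℕ → ℚ) {b Q : ℚ} (hb : b ≠ 0) :
    (-b) ^ h * (Gam h K s).eval (-Q / b) = ∑ i ∈ range K, s i * (Q - b) ^ (h - 2 * i) * b ^ (2 * i) := by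
  unfold Gam
  rw [eval_finsetSum, Finset.mul_sum]
  refine Finset.sum_congr rfl fun i hi => ?_
  rw [mem_range] at hi
  simp only [eval_mul, eval_C, eval_pow, eval_add, eval_one, eval_X]
  have h1 : (-b) ^ h = (-b) ^ (h - 2 * i) * (-b) ^ (2 * i) := by
    rw [← pow_add]
    congr 1
    omega
  have h2 : (-b) ^ (2 * i) = b ^ (2 * i) := by rw [pow_mul, pow_mul, neg_sq]
  have h3 : (-b) ^ (h - 2 * i) * (1 + -Q / b) ^ (h - 2 * i) = (Q - b) ^ (h - 2 * i) := by
    rw [← mul_pow]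
    congr 1
    field_simp
    ring
  rw [h1, h2]
  calc (-b) ^ (h - 2 * i) * b ^ (2 * i) * (s i * (1 + -Q / b) ^ (h - 2 * i))
      = s i * ((-b) ^ (h - 2 * i) * (1 + -Q / b) ^ (h - 2 * i)) * b ^ (2 * i) := by ring
    _ = _ := by rw [h3]

theorem eval_bas {h m : ℕ} (hm : m ≤ h) {b Q e : ℚ} (hb : b ≠ 0) (he : e ^ 2 = Q + b) :
    (-b) ^ h * (bas h m).eval (-Q / b) =
      (-1) ^ m * Q ^ (h - m) * (b * e) ^ (2 * (m / 3)) * (e ^ 2) ^ (m % 3) := by
  unfold bas
  simp only [eval_mul, eval_pow, eval_sub, eval_one, eval_X]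
  have h1 : (-b) ^ h = (-b) ^ (h - m) * (-b) ^ m := by
    rw [← pow_add]
    congr 1
    omega
  have h2 : (-b) ^ (h - m) * (-Q / b) ^ (h - m) = Q ^ (h - m) := by
    rw [← mul_pow]
    congr 1
    field_simp
  have h3 : (-b) ^ m = (-1) ^ m * (b ^ (2 * (m / 3)) * b ^ (m / 3 + m % 3)) := by
    rw [← pow_add, neg_pow]
    congr 2
    omega
  have h4 : b ^ (m / 3 + m % 3) * (1 - -Q / b) ^ (m / 3 + m % 3) = (e ^ 2) ^ (m / 3 + m % 3) := by
    rw [← mul_pow, he]
    congr 1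
    field_simp
    ring
  calc (-b) ^ h * ((-Q / b) ^ (h - m) * (1 - -Q / b) ^ (m / 3 + m % 3))
      = ((-b) ^ (h - m) * (-Q / b) ^ (h - m)) * ((-b) ^ m * (1 - -Q / b) ^ (m / 3 + m % 3)) := by
        rw [h1]; ring
    _ = Q ^ (h - m) * ((-1) ^ m * (b ^ (2 * (m / 3)) *
          (b ^ (m / 3 + m % 3) * (1 - -Q / b) ^ (m / 3 + m % 3)))) := by
        rw [h2, h3]; ring
    _ = _ := by
        rw [h4, pow_add, mul_pow, ← pow_mul e 2 (m / 3)]
        ring

/-- the values of `∑ s_i α ^ (h - 2 i) b ^ (2 i)` if the functionals vanish -/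
theorem sum_of_Fn {h K : ℕ} (hK : 2 * K ≤ h + 2) (s : ℕ → ℚ)
    (hs : ∀ M, 1 ≤ M → 3 * M ≤ h + 1 → Fn h M (Gam h K s) = 0) (c Q : ℚ) :
    ∃ A B : ℚ, ∀ b e : ℚ, b ≠ 0 → e ^ 2 = Q + b → b * e = c →
      ∑ i ∈ range K, s i * (Q - b) ^ (h - 2 * i) * b ^ (2 * i) = A + B * e ^ 2 := by
  obtain ⟨γ, hγ⟩ := exists_bas h (h + 1) le_rfl (Gam h K s) (natDegree_Gam h K s)
    (fun i hi => by omega)
  have hγ0 : ∀ m ≤ h, m % 3 = 2 → γ m = 0 := by
    intro m hm hm3
    have h1 := hs ((m + 1) / 3) (by omega) (by omega)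
    rw [hγ, map_sum, Finset.sum_eq_single m] at h1
    · rw [← smul_eq_C_mul, map_smul, Fn_bas (by omega) (by omega) hm, if_pos (by omega)] at h1
      simpa using h1
    · intro l hl hne
      rw [mem_range] at hl
      rw [← smul_eq_C_mul, map_smul, Fn_bas (by omega) (by omega) (by omega), if_neg (by omega),
        smul_zero]
    · intro h2
      exact absurd (mem_range.2 (by omega)) h2
  refine ⟨∑ m ∈ (range (h + 1)).filter (fun m => m % 3 = 0),
      γ m * ((-1) ^ m * Q ^ (h - m) * c ^ (2 * (m / 3))),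
    ∑ m ∈ (range (h + 1)).filter (fun m => m % 3 = 1),
      γ m * ((-1) ^ m * Q ^ (h - m) * c ^ (2 * (m / 3))), fun b e hb he hc => ?_⟩
  rw [← eval_Gam hK s hb, hγ, eval_finsetSum, Finset.mul_sum, Finset.sum_mul,
    Finset.sum_filter, Finset.sum_filter, ← Finset.sum_add_distrib]
  refine Finset.sum_congr rfl fun m hm => ?_
  rw [mem_range] at hm
  rw [eval_mul, eval_C, mul_left_comm, eval_bas (by omega) hb he, hc]
  rcases (show m % 3 = 0 ∨ m % 3 = 1 ∨ m % 3 = 2 by omega) with h1 | h1 | h1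
  · rw [if_pos h1, if_neg (by omega), h1]
    ring
  · rw [if_neg (by omega), if_pos h1, h1]
    ring
  · rw [if_neg (by omega), if_neg (by omega), hγ0 m (by omega) h1]
    ring

/-! ### the coefficients -/

/-- `(1 - X) ∑ s_i (1 + X) ^ (h - 2 i) X ^ i` -/
noncomputable def Cs (h K : ℕ) (s : ℕ → ℚ) : ℚ[X] :=
  (1 - X) * ∑ i ∈ range K, C (s i) * ((1 + X) ^ (h - 2 * i) * X ^ i)

theorem natDegree_Cs {h K : ℕ} (hK : 2 * K ≤ h + 2) (s : ℕ → ℚ) : (Cs h K s).natDegree ≤ h + 1 := by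
  unfold Cs
  refine natDegree_mul_le.trans ?_
  have h0 : (1 - X : ℚ[X]).natDegree ≤ 1 := by
    refine (natDegree_sub_le _ _).trans ?_
    simp
  have h1 : (∑ i ∈ range K, C (s i) * ((1 + X) ^ (h - 2 * i) * X ^ i)).natDegree ≤ h := by
    refine natDegree_sum_le_of_forall_le _ _ fun i hi => ?_
    rw [mem_range] at hi
    refine (natDegree_C_mul_le _ _).trans (natDegree_mul_le.trans ?_)
    have h2 : ((1 + X : ℚ[X]) ^ (h - 2 * i)).natDegree ≤ h - 2 * i := by
      refine natDegree_pow_le.trans ?_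
      have : (1 + X : ℚ[X]).natDegree ≤ 1 := by
        refine (natDegree_add_le _ _).trans ?_
        simp
      calc (h - 2 * i) * (1 + X : ℚ[X]).natDegree ≤ (h - 2 * i) * 1 := Nat.mul_le_mul_left _ this
        _ = h - 2 * i := by omega
    rw [natDegree_X_pow]
    omega
  omega

/-- evaluation of the homogeneous form -/
theorem eval_Cs {h K : ℕ} (hK : 2 * K ≤ h + 2) (s : ℕ → ℚ) {x y : ℚ} (hx : x ≠ 0) :
    ∑ j ∈ range (h + 2), (Cs h K s).coeff j * (x ^ (2 * (h + 1 - j)) * y ^ (2 * j)) =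
      (x ^ 2 - y ^ 2) * ∑ i ∈ range K, s i * (x ^ 2 + y ^ 2) ^ (h - 2 * i) * (x * y) ^ (2 * i) := by
  have h1 : (x ^ 2) ^ (h + 1) * (Cs h K s).eval (y ^ 2 / x ^ 2) =
      ∑ j ∈ range (h + 2), (Cs h K s).coeff j * (x ^ (2 * (h + 1 - j)) * y ^ (2 * j)) := by
    rw [eval_eq_sum_range' (n := h + 2) (lt_of_le_of_lt (natDegree_Cs hK s) (by omega)),
      Finset.mul_sum]
    refine Finset.sum_congr rfl fun j hj => ?_
    rw [mem_range] at hj
    have e1 : (x ^ 2) ^ (h + 1) = x ^ (2 * (h + 1 - j)) * (x ^ 2) ^ j := by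
      rw [pow_mul, ← pow_add]
      congr 1
      omega
    have e2 : (x ^ 2) ^ j * (y ^ 2 / x ^ 2) ^ j = y ^ (2 * j) := by
      rw [← mul_pow, pow_mul]
      congr 1
      field_simp
    calc (x ^ 2) ^ (h + 1) * ((Cs h K s).coeff j * (y ^ 2 / x ^ 2) ^ j)
        = (Cs h K s).coeff j * (x ^ (2 * (h + 1 - j)) * ((x ^ 2) ^ j * (y ^ 2 / x ^ 2) ^ j)) := by
          rw [e1]; ring
      _ = _ := by rw [e2]
  rw [← h1]
  unfold Cs
  simp only [eval_mul, eval_sub, eval_one, eval_X, eval_finsetSum, eval_C, eval_pow, eval_add]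
  have e3 : (x ^ 2) * (1 - y ^ 2 / x ^ 2) = x ^ 2 - y ^ 2 := by field_simp
  rw [show (x ^ 2) ^ (h + 1) * ((1 - y ^ 2 / x ^ 2) * ∑ i ∈ range K, s i *
      ((1 + y ^ 2 / x ^ 2) ^ (h - 2 * i) * (y ^ 2 / x ^ 2) ^ i)) =
      (x ^ 2 * (1 - y ^ 2 / x ^ 2)) * ((x ^ 2) ^ h * ∑ i ∈ range K, s i *
      ((1 + y ^ 2 / x ^ 2) ^ (h - 2 * i) * (y ^ 2 / x ^ 2) ^ i)) by ring, e3, Finset.mul_sum]
  congr 1
  refine Finset.sum_congr rfl fun i hi => ?_
  rw [mem_range] at hi
  have e4 : (x ^ 2) ^ h = (x ^ 2) ^ (h - 2 * i) * (x ^ 2) ^ i * (x ^ 2) ^ i := by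
    rw [← pow_add, ← pow_add]
    congr 1
    omega
  have e5 : (x ^ 2) ^ (h - 2 * i) * (1 + y ^ 2 / x ^ 2) ^ (h - 2 * i) =
      (x ^ 2 + y ^ 2) ^ (h - 2 * i) := by
    rw [← mul_pow]
    congr 1
    field_simp
  have e6 : (x ^ 2) ^ i * (x ^ 2) ^ i * (y ^ 2 / x ^ 2) ^ i = (x * y) ^ (2 * i) := by
    rw [← mul_pow, ← mul_pow, pow_mul (x * y)]
    congr 1
    field_simp
  calc (x ^ 2) ^ h * (s i * ((1 + y ^ 2 / x ^ 2) ^ (h - 2 * i) * (y ^ 2 / x ^ 2) ^ i))
      = s i * ((x ^ 2) ^ (h - 2 * i) * (1 + y ^ 2 / x ^ 2) ^ (h - 2 * i)) *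
          ((x ^ 2) ^ i * (x ^ 2) ^ i * (y ^ 2 / x ^ 2) ^ i) := by rw [e4]; ring
    _ = _ := by rw [e5, e6]

theorem reflect_pow_aux (k : ℕ) : ((1 + X : ℚ[X]) ^ k).reflect k = (1 + X) ^ k := by
  have h0 : (1 + X : ℚ[X]).natDegree ≤ 1 := by
    refine (natDegree_add_le _ _).trans ?_
    simp
  have e0 : (1 + X : ℚ[X]).reflect 1 = 1 + X := by
    rw [reflect_add]
    have h1 : (1 : ℚ[X]).reflect 1 = X := by simp
    have h2 : (X : ℚ[X]).reflect 1 = 1 := by
      have := reflect_C_mul_X_pow (R := ℚ) 1 1 (c := (1 : ℚ))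
      simpa using this
    rw [h1, h2, add_comm]
  induction k with
  | zero => simp
  | succ k ih =>
    rw [pow_succ, reflect_mul _ _ (natDegree_pow_le.trans
      ((Nat.mul_le_mul_left k h0).trans (Nat.mul_one k).le)) h0, ih, e0]

/-- the symmetry of the coefficients -/
theorem Cs_antisymm {h K : ℕ} (hK : 2 * K ≤ h + 2) (s : ℕ → ℚ) (j : ℕ) (hj : j ≤ h + 1) :
    (Cs h K s).coeff (h + 1 - j) = -(Cs h K s).coeff j := by
  have h1 : (Cs h K s).reflect (h + 1) = - Cs h K s := by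
    unfold Cs
    have e0 : (1 - X : ℚ[X]).reflect 1 = -(1 - X) := by
      rw [reflect_sub]
      have h1 : (1 : ℚ[X]).reflect 1 = X := by simp
      have h2 : (X : ℚ[X]).reflect 1 = 1 := by
        have := reflect_C_mul_X_pow (R := ℚ) 1 1 (c := (1 : ℚ))
        simpa using this
      rw [h1, h2]
      ring
    have d0 : (1 - X : ℚ[X]).natDegree ≤ 1 := by
      refine (natDegree_sub_le _ _).trans ?_
      simp
    have key : ∀ i ∈ range K, ((1 + X : ℚ[X]) ^ (h - 2 * i) * X ^ i).natDegree ≤ h ∧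
        ((1 + X : ℚ[X]) ^ (h - 2 * i) * X ^ i).reflect h = (1 + X) ^ (h - 2 * i) * X ^ i := by
      intro i hi
      rw [mem_range] at hi
      have h2 : ((1 + X : ℚ[X]) ^ (h - 2 * i)).natDegree ≤ h - 2 * i := by
        refine natDegree_pow_le.trans ?_
        have : (1 + X : ℚ[X]).natDegree ≤ 1 := by
          refine (natDegree_add_le _ _).trans ?_
          simp
        calc (h - 2 * i) * (1 + X : ℚ[X]).natDegree ≤ (h - 2 * i) * 1 := Nat.mul_le_mul_left _ this
          _ = h - 2 * i := by omega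
      have h3 : (X ^ i : ℚ[X]).natDegree ≤ 2 * i := by rw [natDegree_X_pow]; omega
      refine ⟨?_, ?_⟩
      · refine natDegree_mul_le.trans ?_
        omega
      · have h4 := reflect_mul _ _ h2 h3
        rw [show h - 2 * i + 2 * i = h by omega, reflect_pow_aux] at h4
        rw [h4]
        congr 1
        have h5 := reflect_C_mul_X_pow (R := ℚ) (2 * i) i (c := (1 : ℚ))
        simp only [map_one, one_mul] at h5
        rw [h5, revAt_le (by omega), show 2 * i - i = i by omega]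
    have d1 : (∑ i ∈ range K, C (s i) * ((1 + X) ^ (h - 2 * i) * X ^ i)).natDegree ≤ h :=
      natDegree_sum_le_of_forall_le _ _ fun i hi => (natDegree_C_mul_le _ _).trans (key i hi).1
    rw [show h + 1 = 1 + h by ring, reflect_mul _ _ d0 d1, e0]
    have e1 : (∑ i ∈ range K, C (s i) * ((1 + X) ^ (h - 2 * i) * X ^ i)).reflect h =
        ∑ i ∈ range K, C (s i) * ((1 + X) ^ (h - 2 * i) * X ^ i) := by
      ext j
      rw [coeff_reflect, finsetSum_coeff, finsetSum_coeff]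
      refine Finset.sum_congr rfl fun i hi => ?_
      rw [coeff_C_mul, coeff_C_mul, ← coeff_reflect, (key i hi).2]
    rw [e1]
    ring
  have h2 := congrArg (fun f => f.coeff j) h1
  simp only [coeff_reflect, coeff_neg, revAt_le hj] at h2
  exact h2

/-- the first coefficients determine the first `s_i` -/
theorem s_zero_of_coeff {h K : ℕ} (s : ℕ → ℚ) (μ : ℕ)
    (hc : ∀ j < μ, (Cs h K s).coeff j = 0) : ∀ j < μ, j < K → s j = 0 := by
  intro j
  induction j using Nat.strong_induction_on with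
  | _ j ih =>
    intro hj hjK
    have h1 := hc j hj
    unfold Cs at h1
    rw [Finset.mul_sum, finsetSum_coeff, Finset.sum_eq_single j] at h1
    · have e1 : ((1 - X) * (C (s j) * ((1 + X) ^ (h - 2 * j) * X ^ j)) : ℚ[X]) =
          X ^ j * (C (s j) * ((1 - X) * (1 + X) ^ (h - 2 * j))) := by ring
      rw [e1, coeff_X_pow_mul', if_pos le_rfl, Nat.sub_self, coeff_C_mul,
        coeff_zero_eq_eval_zero] at h1
      simpa using h1
    · intro i hi hne
      rw [mem_range] at hi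
      rcases Nat.lt_or_ge i j with h2 | h2
      · rw [ih i h2 (by omega) hi]
        simp
      · have e1 : ((1 - X) * (C (s i) * ((1 + X) ^ (h - 2 * i) * X ^ i)) : ℚ[X]) =
            X ^ i * (C (s i) * ((1 - X) * (1 + X) ^ (h - 2 * i))) := by ring
        rw [e1, coeff_X_pow_mul', if_neg (by omega)]
    · intro h2
      exact absurd (mem_range.2 hjK) h2

/-- the relation for period polynomials -/
theorem three_term {h K : ℕ} (hK : 2 * K ≤ h + 2) (s : ℕ → ℚ)
    (hs : ∀ M, 1 ≤ M → 3 * M ≤ h + 1 → Fn h M (Gam h K s) = 0) (x : ℚ) (h0 : x ≠ 0) (h1 : x ≠ -1) :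
    ∑ j ∈ range (h + 2), (Cs h K s).coeff j * ((x + 1) ^ (2 * (h + 1 - j)) -
      (x + 1) ^ (2 * (h + 1 - j)) * x ^ (2 * j) - x ^ (2 * (h + 1 - j))) = 0 := by
  have hx1 : x + 1 ≠ 0 := fun h => h1 (by linarith)
  have e1 := eval_Cs hK s (x := x + 1) (y := 1) hx1
  have e2 := eval_Cs hK s (x := x + 1) (y := x) hx1
  have e3 := eval_Cs hK s (x := x) (y := 1) h0
  obtain ⟨A, B, hAB⟩ := sum_of_Fn hK s hs (x * (x + 1)) (x ^ 2 + x + 1)
  have a1 := hAB (-(x + 1)) (-x) (neg_ne_zero.2 hx1) (by ring) (by ring)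
  have a2 := hAB (-(x * (x + 1))) (-1) (neg_ne_zero.2 (mul_ne_zero h0 hx1)) (by ring) (by ring)
  have a3 := hAB x (x + 1) h0 (by ring) (by ring)
  have b1 : ∑ i ∈ range K, s i * ((x + 1) ^ 2 + 1 ^ 2) ^ (h - 2 * i) * ((x + 1) * 1) ^ (2 * i) =
      A + B * (-x) ^ 2 := by
    rw [← a1]
    refine Finset.sum_congr rfl fun i _ => ?_
    rw [show (x + 1) ^ 2 + 1 ^ 2 = x ^ 2 + x + 1 - -(x + 1) by ring, pow_mul ((x + 1) * 1),
      pow_mul (-(x + 1))]
    congr 2
    ring
  have b2 : ∑ i ∈ range K, s i * ((x + 1) ^ 2 + x ^ 2) ^ (h - 2 * i) * ((x + 1) * x) ^ (2 * i) =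
      A + B * (-1) ^ 2 := by
    rw [← a2]
    refine Finset.sum_congr rfl fun i _ => ?_
    rw [show (x + 1) ^ 2 + x ^ 2 = x ^ 2 + x + 1 - -(x * (x + 1)) by ring, pow_mul ((x + 1) * x),
      pow_mul (-(x * (x + 1)))]
    congr 2
    ring
  have b3 : ∑ i ∈ range K, s i * (x ^ 2 + 1 ^ 2) ^ (h - 2 * i) * (x * 1) ^ (2 * i) =
      A + B * (x + 1) ^ 2 := by
    rw [← a3]
    refine Finset.sum_congr rfl fun i _ => ?_
    rw [show x ^ 2 + 1 ^ 2 = x ^ 2 + x + 1 - x by ring, mul_one]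
  rw [b1] at e1
  rw [b2] at e2
  rw [b3] at e3
  have e4 : ∑ j ∈ range (h + 2), (Cs h K s).coeff j * ((x + 1) ^ (2 * (h + 1 - j)) -
      (x + 1) ^ (2 * (h + 1 - j)) * x ^ (2 * j) - x ^ (2 * (h + 1 - j))) =
      ∑ j ∈ range (h + 2), (Cs h K s).coeff j * ((x + 1) ^ (2 * (h + 1 - j)) * 1 ^ (2 * j)) -
      ∑ j ∈ range (h + 2), (Cs h K s).coeff j * ((x + 1) ^ (2 * (h + 1 - j)) * x ^ (2 * j)) -
      ∑ j ∈ range (h + 2), (Cs h K s).coeff j * (x ^ (2 * (h + 1 - j)) * 1 ^ (2 * j)) := by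
    rw [← Finset.sum_sub_distrib, ← Finset.sum_sub_distrib]
    refine Finset.sum_congr rfl fun j _ => ?_
    simp only [one_pow]
    ring
  rw [e4, e1, e2, e3]
  ring

/-- the number of free coefficients -/
def mu (h : ℕ) : ℕ := h / 2 + 1 - (h + 1) / 3

/-- injectivity -/
theorem inj_aux (h : ℕ) (s : ℕ → ℚ) (hs0 : ∀ i, h / 2 + 1 ≤ i → s i = 0)
    (hs : ∀ M, 1 ≤ M → 3 * M ≤ h + 1 → Fn h M (Gam h (h / 2 + 1) s) = 0)
    (hc : ∀ j < mu h, (Cs h (h / 2 + 1) s).coeff j = 0) : ∀ i, s i = 0 := by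
  have hmu : mu h = h / 2 + 1 - (h + 1) / 3 := rfl
  have hz := s_zero_of_coeff s (mu h) hc
  -- the exponents
  set S : Finset ℕ := (Finset.Ico (mu h) (h / 2 + 1)).image fun i => h - 2 * i with hS
  have hinj : ∀ i ∈ Finset.Ico (mu h) (h / 2 + 1), ∀ j ∈ Finset.Ico (mu h) (h / 2 + 1),
      h - 2 * i = h - 2 * j → i = j := by
    intro i hi j hj hij
    rw [Finset.mem_Ico] at hi hj
    omega
  have hcard : S.card = (h + 1) / 3 := by
    rw [hS, Finset.card_image_of_injOn (fun i hi j hj hij => hinj i hi j hj hij), Nat.card_Ico]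
    omega
  set c : ℕ → ℚ := fun e => s ((h - e) / 2) with hcdef
  have hG : Gam h (h / 2 + 1) s = pw S c := by
    unfold Gam pw
    rw [hS, Finset.sum_image (fun i hi j hj hij => hinj i hi j hj hij)]
    symm
    have h1 : ∀ i ∈ Finset.Ico (mu h) (h / 2 + 1), C (c (h - 2 * i)) * (1 + X) ^ (h - 2 * i) =
        C (s i) * (1 + X : ℚ[X]) ^ (h - 2 * i) := by
      intro i hi
      rw [Finset.mem_Ico] at hi
      show C (s ((h - (h - 2 * i)) / 2)) * _ = _
      rw [show (h - (h - 2 * i)) / 2 = i by omega]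
    rw [Finset.sum_congr rfl h1]
    apply Finset.sum_subset
    · intro i hi
      rw [Finset.mem_Ico] at hi
      rw [mem_range]
      exact hi.2
    · intro i hi hi'
      rw [mem_range] at hi
      rw [Finset.mem_Ico, not_and'] at hi'
      have h2 := hi' hi
      rw [hz i (by omega) hi]
      simp
  have h0 : pw S c = 0 := by
    refine pw_zero (n := h + 1) S c (by rw [hcard]; omega) fun M hM hMh => ?_
    have := hs M hM hMh
    rwa [hG, Fn_apply] at this
  -- the powers are linearly independent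
  have h1 : ∀ i < h / 2 + 1, s i = 0 := by
    by_contra hcon
    push Not at hcon
    obtain ⟨i₁, hi₁, hne₁⟩ := hcon
    have hex : ∃ i, i < h / 2 + 1 ∧ s i ≠ 0 := ⟨i₁, hi₁, hne₁⟩
    classical
    -- the smallest index gives the highest power
    set i₀ := Nat.find hex with hi₀
    obtain ⟨hlt, hne⟩ := Nat.find_spec hex
    have hmin : ∀ i < i₀, s i = 0 := by
      intro i hi
      by_contra hne'
      exact Nat.find_min hex hi ⟨by omega, hne'⟩
    have h2 : (Gam h (h / 2 + 1) s).coeff (h - 2 * i₀) = s i₀ := by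
      unfold Gam
      rw [finsetSum_coeff, Finset.sum_eq_single i₀]
      · rw [coeff_C_mul, add_comm, coeff_X_add_one_pow, Nat.choose_self]
        simp
      · intro j hj hne'
        rw [mem_range] at hj
        rcases Nat.lt_or_ge j i₀ with h3 | h3
        · rw [hmin j h3]
          simp
        · rw [coeff_C_mul, add_comm, coeff_X_add_one_pow, Nat.choose_eq_zero_of_lt (by omega)]
          simp
      · intro h3
        exact absurd (mem_range.2 hlt) h3
    rw [hG, h0, coeff_zero] at h2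
    exact hne h2.symm
  intro i
  rcases Nat.lt_or_ge i (h / 2 + 1) with h2 | h2
  · exact h1 i h2
  · exact hs0 i h2

/-- extension by zero -/
def ext0 (K : ℕ) : (Fin K → ℚ) →ₗ[ℚ] (ℕ → ℚ) where
  toFun s i := if hi : i < K then s ⟨i, hi⟩ else 0
  map_add' s t := by
    funext i
    simp only [Pi.add_apply]
    split_ifs <;> simp
  map_smul' r s := by
    funext i
    simp only [Pi.smul_apply, RingHom.id_apply]
    split_ifs <;> simp

/-- `Gam` and `Cs` are linear -/
noncomputable def GamL (h K : ℕ) : (ℕ → ℚ) →ₗ[ℚ] ℚ[X] where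
  toFun := Gam h K
  map_add' s t := by
    simp [Gam, Finset.sum_add_distrib, add_mul]
  map_smul' r s := by
    simp [Gam, Finset.mul_sum, mul_assoc, smul_eq_C_mul]

noncomputable def CsL (h K : ℕ) : (ℕ → ℚ) →ₗ[ℚ] ℚ[X] where
  toFun := Cs h K
  map_add' s t := by
    simp [Cs, Finset.sum_add_distrib, add_mul, mul_add]
  map_smul' r s := by
    simp only [Cs, Pi.smul_apply, smul_eq_mul, C_mul, RingHom.id_apply, smul_eq_C_mul]
    rw [mul_left_comm]
    congr 1
    rw [Finset.mul_sum]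
    simp only [mul_assoc]

/-- **Even period polynomials with prescribed first coefficients.** -/
theorem exists_period (h : ℕ) (v : ℕ → ℚ) :
    ∃ c : ℕ → ℚ, (∀ j < mu h, c j = v j) ∧ (∀ j ≤ h + 1, c (h + 1 - j) = - c j) ∧
      ∀ x : ℚ, x ≠ 0 → x ≠ -1 → ∑ j ∈ range (h + 2), c j * ((x + 1) ^ (2 * (h + 1 - j)) -
        (x + 1) ^ (2 * (h + 1 - j)) * x ^ (2 * j) - x ^ (2 * (h + 1 - j))) = 0 := by
  set K := h / 2 + 1 with hK
  set f := (h + 1) / 3 with hf
  have hmu : K = f + mu h := by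
    have : mu h = h / 2 + 1 - (h + 1) / 3 := rfl
    omega
  let Ψ : (Fin K → ℚ) →ₗ[ℚ] (Fin f → ℚ) × (Fin (mu h) → ℚ) :=
    LinearMap.prod
      (LinearMap.pi fun M : Fin f => (Fn h (M + 1)) ∘ₗ (GamL h K) ∘ₗ (ext0 K))
      (LinearMap.pi fun j : Fin (mu h) =>
        (LinearMap.proj (j : ℕ)) ∘ₗ coeffL ∘ₗ (CsL h K) ∘ₗ (ext0 K))
  have hinj : Function.Injective Ψ := by
    rw [injective_iff_map_eq_zero]
    intro s hs
    have h1 := inj_aux h (ext0 K s) (by
      intro i hi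
      show (if hi : i < K then s ⟨i, hi⟩ else 0) = 0
      rw [dif_neg (by omega)]) (by
      intro M hM hMh
      have h2 : (Ψ s).1 ⟨M - 1, by omega⟩ = 0 := by rw [hs]; rfl
      have h3 : Fn h (M - 1 + 1) (Gam h K (ext0 K s)) = 0 := h2
      rwa [Nat.sub_add_cancel hM] at h3) (by
      intro j hj
      have h2 : (Ψ s).2 ⟨j, hj⟩ = 0 := by rw [hs]; rfl
      exact h2)
    funext i
    have h2 := h1 i
    have h3 : (if hi : (i : ℕ) < K then s ⟨i, hi⟩ else 0) = 0 := h2
    rw [dif_pos i.2] at h3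
    exact h3
  have hsurj : Function.Surjective Ψ := by
    apply (LinearMap.injective_iff_surjective_of_finrank_eq_finrank ?_).1 hinj
    rw [Module.finrank_prod, Module.finrank_fin_fun, Module.finrank_fin_fun,
      Module.finrank_fin_fun]
    exact hmu
  obtain ⟨s, hs⟩ := hsurj (0, fun j => v j)
  have h2K : 2 * K ≤ h + 2 := by omega
  refine ⟨(Cs h K (ext0 K s)).coeff, ?_, Cs_antisymm h2K _, three_term h2K _ ?_⟩
  · intro j hj
    have h2 : (Ψ s).2 ⟨j, hj⟩ = v j := by rw [hs]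
    exact h2
  · intro M hM hMh
    have h2 : (Ψ s).1 ⟨M - 1, by omega⟩ = 0 := by rw [hs]; rfl
    have h3 : Fn h (M - 1 + 1) (Gam h K (ext0 K s)) = 0 := h2
    rwa [Nat.sub_add_cancel hM] at h3

end Pool.Agent.H21.Ech
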