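import Mathlib

/-!
# Sign variations of coefficient sequences

`Var k N a`: the numbers `a 0, …, a N` have at most `k` changes of sign.
-/

set_option autoImplicit false

namespace Pool.Agent.H21.Ech

open Finset Polynomial

/-- at most `k` changes of sign in `a 0, …, a N` -/
def Var (k N : ℕ) (a : ℕ → ℚ) : Prop :=
  ∃ (e : ℚ) (b : ℕ → ℕ), (e = 1 ∨ e = -1) ∧ (∀ i < N, b i ≤ b (i + 1)) ∧ (∀ i ≤ N, b i ≤ k) ∧
    ∀ i ≤ N, 0 ≤ (-1) ^ b i * e * a i

/-- partial sums -/
def psum (a : ℕ → ℚ) (i : ℕ) : ℚ := ∑ l ∈ range (i + 1), a l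

theorem psum_succ (a : ℕ → ℚ) (i : ℕ) : psum a (i + 1) = psum a i + a (i + 1) := by
  unfold psum
  rw [Finset.sum_range_succ]

theorem psum_zero (a : ℕ → ℚ) : psum a 0 = a 0 := by
  simp [psum]

theorem Var.mono {k l N M : ℕ} {a : ℕ → ℚ} (h : Var k N a) (hk : k ≤ l) (hM : M ≤ N) : Var l M a := by
  obtain ⟨e, b, he, h1, h2, h3⟩ := h
  exact ⟨e, b, he, fun i hi => h1 i (by omega), fun i hi => (h2 i (by omega)).trans hk,
    fun i hi => h3 i (by omega)⟩

theorem Var.congr {k N : ℕ} {a a' : ℕ → ℚ} (h : Var k N a) (haa : ∀ i ≤ N, a i = a' i) : Var k N a' := by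
  obtain ⟨e, b, he, h1, h2, h3⟩ := h
  exact ⟨e, b, he, h1, h2, fun i hi => by rw [← haa i hi]; exact h3 i hi⟩

theorem mono_of {N : ℕ} {b : ℕ → ℕ} (h1 : ∀ i < N, b i ≤ b (i + 1)) :
    ∀ j ≤ N, ∀ i ≤ j, b i ≤ b j := by
  intro j
  induction j with
  | zero => intro _ i hi; rw [Nat.le_zero.1 hi]
  | succ j ih =>
    intro hj i hi
    rcases Nat.lt_or_ge i (j + 1) with h | h
    · exact (ih (by omega) i (by omega)).trans (h1 j (by omega))
    · rw [show i = j + 1 by omega]

/-- multiplication by `c + X` does not increase the number of changes -/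
theorem Var.mul_linear {k N : ℕ} {g : ℕ → ℚ} (h : Var k N g) (c : ℚ) (hc : 0 ≤ c)
    (F : ℕ → ℚ) (h0 : F 0 = c * g 0) (hs : ∀ i, F (i + 1) = c * g (i + 1) + g i) : Var k N F := by
  classical
  obtain ⟨e, b, he, h1, h2, h3⟩ := h
  have hneg : ∀ (m : ℕ) (t : ℚ), ¬ 0 ≤ (-1 : ℚ) ^ m * e * t → 0 ≤ (-1 : ℚ) ^ (m + 1) * e * t := by
    intro m t ht
    rw [pow_succ]
    nlinarith [not_le.1 ht]
  refine ⟨e, fun i => if 0 ≤ (-1 : ℚ) ^ b i * e * F i then b i else b (i - 1), he, ?_, ?_, ?_⟩
  · intro i hi
    have hb1 := h1 i hi
    have hb0 : b (i - 1) ≤ b i := by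
      rcases Nat.eq_zero_or_pos i with h | h
      · subst h; exact le_rfl
      · have := h1 (i - 1) (by omega)
        rwa [show i - 1 + 1 = i by omega] at this
    simp only [Nat.add_sub_cancel]
    split_ifs <;> omega
  · intro i hi
    have hb0 : b (i - 1) ≤ b i := by
      rcases Nat.eq_zero_or_pos i with h | h
      · subst h; exact le_rfl
      · have := h1 (i - 1) (by omega)
        rwa [show i - 1 + 1 = i by omega] at this
    have := h2 i hi
    show (if 0 ≤ (-1 : ℚ) ^ b i * e * F i then b i else b (i - 1)) ≤ k
    split_ifs <;> omega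
  · intro i hi
    show 0 ≤ (-1 : ℚ) ^ (if 0 ≤ (-1 : ℚ) ^ b i * e * F i then b i else b (i - 1)) * e * F i
    split_ifs with h
    · exact h
    · rcases Nat.eq_zero_or_pos i with h' | h'
      · subst h'
        exfalso
        apply h
        rw [h0]
        have := h3 0 hi
        have h4 : (-1 : ℚ) ^ b 0 * e * (c * g 0) = c * ((-1) ^ b 0 * e * g 0) := by ring
        rw [h4]
        exact mul_nonneg hc this
      · obtain ⟨j, rfl⟩ : ∃ j, i = j + 1 := ⟨i - 1, by omega⟩
        simp only [Nat.add_sub_cancel]
        have hb := h1 j (by omega)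
        have h5 := h3 (j + 1) hi
        have h6 := h3 j (by omega)
        by_contra hcon
        have h7 := hneg _ _ h
        rw [pow_succ] at h7
        have hlt := not_le.1 h
        have hlt2 := not_le.1 hcon
        rw [hs] at hlt hlt2
        -- the parity of `b j` and `b (j+1)`
        obtain ⟨d, hd⟩ := Nat.exists_eq_add_of_le hb
        rw [hd] at h5 hlt
        have hpow : (-1 : ℚ) ^ (b j + d) = (-1) ^ b j ∨ (-1 : ℚ) ^ (b j + d) = -(-1) ^ b j := by
          rw [pow_add]
          rcases neg_one_pow_eq_or ℚ d with h8 | h8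
          · left; rw [h8, mul_one]
          · right; rw [h8]; ring
        rcases hpow with h8 | h8
        · rw [h8] at h5
          have h9 : (-1 : ℚ) ^ b j * e * (c * g (j + 1) + g j) =
            c * ((-1) ^ b j * e * g (j + 1)) + (-1) ^ b j * e * g j := by ring
          rw [h9] at hlt2
          have := mul_nonneg hc h5
          linarith
        · rw [h8] at hlt
          have h9 : -(-1 : ℚ) ^ b j * e * (c * g (j + 1) + g j) =
            -((-1 : ℚ) ^ b j * e * (c * g (j + 1) + g j)) := by ring
          rw [h9] at hlt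
          linarith

/-- partial sums with last entry zero: at least one change of sign less -/
theorem Var.psum {k N : ℕ} {a : ℕ → ℚ} (h : Var (k + 1) N a) (hN : psum a N = 0) :
    Var k N (psum a) := by
  classical
  obtain ⟨e, b, he, h1, h2, h3⟩ := h
  have hmono := mono_of h1
  -- no sign change before the second block
  have hfirst : ∀ i ≤ N, b i = 0 → 0 ≤ e * Ech.psum a i := by
    intro i
    induction i with
    | zero =>
      intro hi hb
      have := h3 0 hi
      rw [hb] at this
      rw [psum_zero]
      simpa using this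
    | succ i ih =>
      intro hi hb
      have hb' : b i = 0 := by have := h1 i (by omega); omega
      have h4 := ih (by omega) hb'
      have h5 := h3 (i + 1) hi
      rw [hb] at h5
      rw [psum_succ, mul_add]
      simp only [pow_zero, one_mul] at h5
      linarith
  have hlast : ∀ d i, i + d = N → b i = k + 1 → (-1 : ℚ) ^ b i * e * Ech.psum a i ≤ 0 := by
    intro d
    induction d with
    | zero =>
      intro i hi _
      rw [show i = N by omega, hN, mul_zero]
    | succ d ih =>
      intro i hi hb
      have hb' : b (i + 1) = k + 1 := by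
        have := h1 i (by omega)
        have := h2 (i + 1) (by omega)
        omega
      have h4 := ih (i + 1) (by omega) hb'
      have h5 := h3 (i + 1) (by omega)
      rw [psum_succ, mul_add, hb', ← hb] at h4
      rw [hb', ← hb] at h5
      linarith
  refine ⟨e, fun i => if 0 < (-1 : ℚ) ^ b i * e * Ech.psum a i then b i else b i - 1, he, ?_, ?_, ?_⟩
  · intro i hi
    have hb1 := h1 i hi
    show (if 0 < (-1 : ℚ) ^ b i * e * Ech.psum a i then b i else b i - 1) ≤
      (if 0 < (-1 : ℚ) ^ b (i + 1) * e * Ech.psum a (i + 1) then b (i + 1) else b (i + 1) - 1)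
    rcases Nat.lt_or_ge (b i) (b (i + 1)) with hlt | hge
    · split_ifs <;> omega
    · have heq : b (i + 1) = b i := by omega
      rw [heq]
      split_ifs with h4 h5
      · exact le_rfl
      · exfalso
        apply h5
        have h6 := h3 (i + 1) (by omega)
        rw [psum_succ, mul_add]
        rw [heq] at h6
        linarith
      · omega
      · exact le_rfl
  · intro i hi
    show (if 0 < (-1 : ℚ) ^ b i * e * Ech.psum a i then b i else b i - 1) ≤ k
    have hbk := h2 i hi
    split_ifs with h4
    · by_contra hcon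
      have hb : b i = k + 1 := by omega
      obtain ⟨d, hd⟩ := Nat.exists_eq_add_of_le hi
      have := hlast d i hd.symm hb
      linarith
    · omega
  · intro i hi
    show 0 ≤ (-1 : ℚ) ^ (if 0 < (-1 : ℚ) ^ b i * e * Ech.psum a i then b i else b i - 1) * e *
      Ech.psum a i
    split_ifs with h4
    · exact h4.le
    · rcases Nat.eq_zero_or_pos (b i) with h5 | h5
      · rw [h5]
        have := hfirst i hi h5
        simpa using this
      · obtain ⟨j, hj⟩ : ∃ j, b i = j + 1 := ⟨b i - 1, by omega⟩
        rw [hj] at h4 ⊢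
        simp only [Nat.add_sub_cancel]
        rw [pow_succ] at h4
        linarith [not_lt.1 h4]

/-- partial sums of numbers of the same sign with last entry zero -/
theorem Var.psum_zero {N : ℕ} {a : ℕ → ℚ} (h : Var 0 N a) (hN : Ech.psum a N = 0) :
    ∀ i ≤ N, a i = 0 := by
  obtain ⟨e, b, he, h1, h2, h3⟩ := h
  have h4 : ∀ i ∈ range (N + 1), 0 ≤ e * a i := by
    intro i hi
    have hi' : i ≤ N := by rw [mem_range] at hi; omega
    have := h3 i hi'
    rw [show b i = 0 by have := h2 i hi'; omega] at this
    simpa using this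
  have h5 : ∑ i ∈ range (N + 1), e * a i = 0 := by
    rw [← Finset.mul_sum]
    show e * Ech.psum a N = 0
    rw [hN, mul_zero]
  have h6 := (Finset.sum_eq_zero_iff_of_nonneg h4).1 h5
  intro i hi
  have h7 := h6 i (mem_range.2 (by omega))
  rcases mul_eq_zero.1 h7 with h8 | h8
  · rcases he with he | he <;> rw [he] at h8 <;> norm_num at h8
  · exact h8

/-! ### Combinations of powers of `1 + X` -/

/-- `∑ c_j (1 + X) ^ j` -/
noncomputable def pw (S : Finset ℕ) (c : ℕ → ℚ) : ℚ[X] := ∑ j ∈ S, C (c j) * (1 + X) ^ j

theorem coeff_one_add_X_mul (g : ℚ[X]) (i : ℕ) :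
    ((1 + X) * g).coeff (i + 1) = g.coeff (i + 1) + g.coeff i := by
  rw [add_mul, one_mul, coeff_add, coeff_X_mul]

theorem coeff_one_add_X_mul_zero (g : ℚ[X]) : ((1 + X) * g).coeff 0 = g.coeff 0 := by
  rw [add_mul, one_mul, coeff_add, coeff_X_mul_zero, add_zero]

theorem Var.one_add_pow {k N : ℕ} {g : ℚ[X]} (h : Var k N g.coeff) (m : ℕ) :
    Var k N ((1 + X) ^ m * g).coeff := by
  induction m with
  | zero => simpa using h
  | succ m ih =>
    refine ih.mul_linear 1 zero_le_one _ ?_ ?_
    · rw [pow_succ', mul_assoc, coeff_one_add_X_mul_zero, one_mul]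
    · intro i
      rw [pow_succ', mul_assoc, coeff_one_add_X_mul, one_mul]

theorem vanish_one_add_pow {L : ℕ} {g : ℚ[X]} (m : ℕ)
    (h : ∀ i < L, ((1 + X) ^ m * g).coeff i = 0) : ∀ i < L, g.coeff i = 0 := by
  induction m with
  | zero => simpa using h
  | succ m ih =>
    apply ih
    intro i
    induction i with
    | zero =>
      intro hi
      have := h 0 hi
      rwa [pow_succ', mul_assoc, coeff_one_add_X_mul_zero] at this
    | succ i ih2 =>
      intro hi
      have := h (i + 1) hi
      rw [pow_succ', mul_assoc, coeff_one_add_X_mul, ih2 (by omega), add_zero] at this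
      exact this

/-- the shift of the exponents -/
theorem pw_factor (S : Finset ℕ) (c : ℕ → ℚ) (m : ℕ) (hm : ∀ j ∈ S, m ≤ j) :
    pw S c = (1 + X) ^ m * pw (S.image fun j => j - m) (fun j => c (j + m)) := by
  unfold pw
  rw [Finset.sum_image]
  · rw [Finset.mul_sum]
    refine Finset.sum_congr rfl fun j hj => ?_
    show C (c j) * (1 + X) ^ j = (1 + X) ^ m * (C (c (j - m + m)) * (1 + X) ^ (j - m))
    rw [Nat.sub_add_cancel (hm j hj), mul_left_comm, ← pow_add, Nat.add_sub_cancel' (hm j hj)]
  · intro i hi j hj hij
    have h1 := hm i hi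
    have h2 := hm j hj
    simp only at hij
    omega

theorem deriv_pw (S : Finset ℕ) (c : ℕ → ℚ) :
    derivative (pw S c) = pw ((S.erase 0).image fun j => j - 1) (fun j => c (j + 1) * (j + 1)) := by
  unfold pw
  rw [Finset.sum_image]
  · rw [derivative_sum]
    have h : ∑ j ∈ S, derivative (C (c j) * (1 + X) ^ j) =
        ∑ j ∈ S.erase 0, derivative (C (c j) * (1 + X) ^ j) := by
      symm
      apply Finset.sum_subset (Finset.erase_subset _ _)
      intro j hj hj'
      have : j = 0 := by
        by_contra hne
        exact hj' (Finset.mem_erase.2 ⟨hne, hj⟩)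
      subst this
      simp
    rw [h]
    refine Finset.sum_congr rfl fun j hj => ?_
    obtain ⟨i, rfl⟩ : ∃ i, j = i + 1 := ⟨j - 1, by have := (Finset.mem_erase.1 hj).1; omega⟩
    simp only [derivative_C_mul, Nat.add_sub_cancel]
    rw [derivative_pow]
    simp only [derivative_add, derivative_one, derivative_X, zero_add, mul_one, Nat.add_sub_cancel]
    rw [C_mul]
    push_cast
    simp only [map_add, map_natCast, map_one]
    ring
  · intro i hi j hj hij
    have h1 : i ≠ 0 := (Finset.mem_erase.1 hi).1
    have h2 : j ≠ 0 := (Finset.mem_erase.1 hj).1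
    simp only at hij
    omega

theorem card_shift (S : Finset ℕ) (m : ℕ) (hm : ∀ j ∈ S, m ≤ j) :
    (S.image fun j => j - m).card = S.card := by
  apply Finset.card_image_of_injOn
  intro i hi j hj hij
  have h1 := hm i hi
  have h2 := hm j hj
  simp only at hij
  omega

/-- the two estimates, by division by the smallest power and differentiation -/
theorem pw_var : ∀ (n : ℕ) (S : Finset ℕ) (c : ℕ → ℚ) (L : ℕ), S.card = n →
    (∀ i < L, (pw S c).coeff i = 0) →
    (n ≤ L → pw S c = 0) ∧ ∀ k N, n ≤ k + 1 + L → Var k N (pw S c).coeff := by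
  intro n
  induction n with
  | zero =>
    intro S c L hS _
    have h0 : pw S c = 0 := by
      rw [Finset.card_eq_zero.1 hS]
      rfl
    refine ⟨fun _ => h0, fun k N _ => ?_⟩
    rw [h0]
    exact ⟨1, fun _ => 0, Or.inl rfl, fun _ _ => le_rfl, fun _ _ => Nat.zero_le _,
      fun i _ => by simp⟩
  | succ n ih =>
    intro S c L hS hL
    -- divide by the smallest power
    have hne : S.Nonempty := Finset.card_pos.1 (by omega)
    set m := S.min' hne with hm
    have hmj : ∀ j ∈ S, m ≤ j := fun j hj => S.min'_le j hj
    have hfac := pw_factor S c m hmj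
    set S₁ := S.image fun j => j - m with hS₁
    set c₁ := fun j => c (j + m) with hc₁
    have hcard : S₁.card = n + 1 := by rw [hS₁, card_shift S m hmj, hS]
    have h0 : 0 ∈ S₁ := by
      rw [hS₁, Finset.mem_image]
      exact ⟨m, S.min'_mem hne, Nat.sub_self m⟩
    have hL₁ : ∀ i < L, (pw S₁ c₁).coeff i = 0 := by
      apply vanish_one_add_pow m
      intro i hi
      rw [← hfac]
      exact hL i hi
    suffices hmain : (n + 1 ≤ L → pw S₁ c₁ = 0) ∧ ∀ k N, n + 1 ≤ k + 1 + L →
        Var k N (pw S₁ c₁).coeff by
      refine ⟨fun h => by rw [hfac, hmain.1 h, mul_zero], fun k N h => ?_⟩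
      rw [hfac]
      exact (hmain.2 k N h).one_add_pow m
    -- the derivative
    have hder := deriv_pw S₁ c₁
    set S₂ := (S₁.erase 0).image fun j => j - 1 with hS₂
    set c₂ := fun j : ℕ => c₁ (j + 1) * ((j : ℚ) + 1) with hc₂
    have hcard₂ : S₂.card = n := by
      rw [hS₂, card_shift (S₁.erase 0) 1 (fun j hj => by
        have := (Finset.mem_erase.1 hj).1; omega), Finset.card_erase_of_mem h0, hcard]
      rfl
    have hcoef : ∀ i, (pw S₂ c₂).coeff i = (pw S₁ c₁).coeff (i + 1) * ((i : ℚ) + 1) := by
      intro i
      rw [← hder, coeff_derivative]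
    have hL₂ : ∀ i < L - 1, (pw S₂ c₂).coeff i = 0 := by
      intro i hi
      rw [hcoef, hL₁ (i + 1) (by omega), zero_mul]
    obtain ⟨ih1, ih2⟩ := ih S₂ c₂ (L - 1) hcard₂ hL₂
    have hpos : ∀ i : ℕ, (0 : ℚ) < (i : ℚ) + 1 := fun i => by positivity
    refine ⟨fun h => ?_, fun k N h => ?_⟩
    · have h1 := ih1 (by omega)
      ext i
      rw [coeff_zero]
      rcases i with _ | i
      · exact hL₁ 0 (by omega)
      · have h2 := hcoef i
        rw [h1, coeff_zero] at h2
        rcases mul_eq_zero.1 h2.symm with h3 | h3
        · exact h3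
        · exact absurd h3 (hpos i).ne'
    · rcases Nat.eq_zero_or_pos L with h0L | hLpos
      · subst h0L
        rcases k with _ | k
        · -- one power only
          have hn : n = 0 := by omega
          subst hn
          obtain ⟨t, ht⟩ := Finset.card_eq_one.1 (by rw [hcard])
          have ht0 : t = 0 := by
            rw [ht, Finset.mem_singleton] at h0
            exact h0.symm
          have h1 : pw S₁ c₁ = C (c₁ 0) := by
            unfold pw
            rw [ht, ht0]
            simp
          rw [h1]
          refine ⟨if 0 ≤ c₁ 0 then 1 else -1, fun _ => 0, ?_, fun _ _ => le_rfl,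
            fun _ _ => le_rfl, ?_⟩
          · split_ifs
            · exact Or.inl rfl
            · exact Or.inr rfl
          · intro i _
            rw [coeff_C]
            split_ifs with h3 h4 h4 <;> simp <;> linarith
        · obtain ⟨e', b', he', hb1, hb2, hb3⟩ := ih2 k N (by omega)
          -- the sign of the constant coefficient
          obtain ⟨e, he, he0⟩ : ∃ e : ℚ, (e = 1 ∨ e = -1) ∧ 0 ≤ e * (pw S₁ c₁).coeff 0 := by
            by_cases h3 : 0 ≤ (pw S₁ c₁).coeff 0
            · exact ⟨1, Or.inl rfl, by linarith⟩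
            · exact ⟨-1, Or.inr rfl, by linarith [not_le.1 h3]⟩
          obtain ⟨δ, hδ, hδe⟩ : ∃ δ : ℕ, δ ≤ 1 ∧ (-1 : ℚ) ^ δ * e = e' := by
            rcases he with he | he <;> rcases he' with he' | he'
            · exact ⟨0, by omega, by rw [he, he']; norm_num⟩
            · exact ⟨1, by omega, by rw [he, he']; norm_num⟩
            · exact ⟨1, by omega, by rw [he, he']; norm_num⟩
            · exact ⟨0, by omega, by rw [he, he']; norm_num⟩
          refine ⟨e, fun i => if i = 0 then 0 else b' (i - 1) + δ, he, ?_, ?_, ?_⟩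
          · intro i hi
            rcases i with _ | i
            · simp
            · have := hb1 i (by omega)
              simp only [Nat.add_sub_cancel, Nat.succ_ne_zero, if_false]
              omega
          · intro i hi
            rcases i with _ | i
            · simp
            · have := hb2 i (by omega)
              simp only [Nat.add_sub_cancel, Nat.succ_ne_zero, if_false]
              omega
          · intro i hi
            rcases i with _ | i
            · simpa using he0
            · simp only [Nat.add_sub_cancel, Nat.succ_ne_zero, if_false]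
              have h4 := hb3 i (by omega)
              rw [hcoef, ← hδe] at h4
              have h5 : (-1 : ℚ) ^ (b' i + δ) * e * (pw S₁ c₁).coeff (i + 1) * ((i : ℚ) + 1) =
                  (-1) ^ b' i * ((-1) ^ δ * e) * ((pw S₁ c₁).coeff (i + 1) * ((i : ℚ) + 1)) := by
                rw [pow_add]; ring
              exact nonneg_of_mul_nonneg_left (h5 ▸ h4) (hpos i)
      · obtain ⟨e', b', he', hb1, hb2, hb3⟩ := ih2 k N (by omega)
        refine ⟨e', fun i => b' (i - 1), he', ?_, ?_, ?_⟩
        · intro i hi
          rcases i with _ | i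
          · simp
          · have := hb1 i (by omega)
            simpa using this
        · intro i hi
          exact hb2 (i - 1) (by omega)
        · intro i hi
          rcases i with _ | i
          · rw [hL₁ 0 hLpos, mul_zero]
          · simp only [Nat.add_sub_cancel]
            have h4 := hb3 i (by omega)
            rw [hcoef] at h4
            have h5 : (-1 : ℚ) ^ b' i * e' * (pw S₁ c₁).coeff (i + 1) * ((i : ℚ) + 1) =
                (-1) ^ b' i * e' * ((pw S₁ c₁).coeff (i + 1) * ((i : ℚ) + 1)) := by ring
            exact nonneg_of_mul_nonneg_left (h5 ▸ h4) (hpos i)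

/-- iterated partial sums vanish where the sequence does -/
theorem psum_iter_vanish {r : ℕ} {a : ℕ → ℚ} (h : ∀ i < r, a i = 0) (M : ℕ) :
    ∀ i < r, (psum^[M] a) i = 0 := by
  induction M with
  | zero => simpa using h
  | succ M ih =>
    intro i hi
    rw [Function.iterate_succ_apply']
    refine Finset.sum_eq_zero fun l hl => ih l ?_
    rw [mem_range] at hl
    omega

theorem vanish_of_psum_iter {r : ℕ} {a : ℕ → ℚ} (M : ℕ) (h : ∀ i < r, (psum^[M] a) i = 0) :
    ∀ i < r, a i = 0 := by
  induction M with
  | zero => simpa using h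
  | succ M ih =>
    apply ih
    intro i hi
    rw [Function.iterate_succ_apply'] at h
    rcases i with _ | i
    · have := h 0 hi
      rwa [psum_zero] at this
    · have h1 := h (i + 1) hi
      have h2 := h i (by omega)
      rw [psum_succ, h2, zero_add] at h1
      exact h1

/-- **The combinatorial theorem.** -/
theorem pw_zero {n : ℕ} (S : Finset ℕ) (c : ℕ → ℚ) (hS : 3 * S.card ≤ n)
    (hc : ∀ M, 1 ≤ M → 3 * M ≤ n → (psum^[M] (pw S c).coeff) (n - 3 * M) = 0) : pw S c = 0 := by
  set K := S.card with hK
  have main : ∀ L ≤ K, ∀ i < L, (pw S c).coeff i = 0 := by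
    intro L
    induction L with
    | zero => intro _ i hi; omega
    | succ L ih =>
      intro hLK
      have hL := ih (by omega)
      obtain ⟨k, hk⟩ : ∃ k, K = k + 1 + L := ⟨K - 1 - L, by omega⟩
      have hvar : ∀ N, Var k N (pw S c).coeff := fun N =>
        (pw_var K S c L hK.symm hL).2 k N (by omega)
      have step : ∀ m ≤ k, Var (k - m) (n - 3 * m) (psum^[m] (pw S c).coeff) := by
        intro m
        induction m with
        | zero => intro _; exact hvar _
        | succ m ih2 =>
          intro hm
          have h1 := (ih2 (by omega)).mono (le_refl (k - m)) (show n - 3 * (m + 1) ≤ n - 3 * m by omega)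
          rw [show k - m = k - (m + 1) + 1 by omega] at h1
          rw [Function.iterate_succ_apply']
          apply h1.psum
          have := hc (m + 1) (by omega) (by omega)
          rwa [Function.iterate_succ_apply'] at this
      have h1 := (step k le_rfl).mono (le_refl (k - k)) (show n - 3 * (k + 1) ≤ n - 3 * k by omega)
      rw [Nat.sub_self] at h1
      have h2 := h1.psum_zero (by
        have := hc (k + 1) (by omega) (by omega)
        rwa [Function.iterate_succ_apply'] at this)
      refine vanish_of_psum_iter k fun i hi => h2 i ?_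
      omega
  exact (pw_var K S c K hK.symm (main K le_rfl)).1 le_rfl

end Pool.Agent.H21.Ech
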